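import Mathlib

/-! A version of Haxell's theorem on independent transversals for linear matroids. -/

set_option autoImplicit false

namespace Pool.Agent.P.MP_01accb_co.HV

open Finset Submodule Module

variable {K M ι : Type} [Field K] [AddCommGroup M] [Module K M] [DecidableEq ι]

/-- the span of the vectors of a finite set -/
abbrev sp (K : Type) {M ι : Type} [Field K] [AddCommGroup M] [Module K M] (vec : ι → M)
    (I : Finset ι) : Submodule K M := span K (vec '' (I : Set ι))

omit [DecidableEq ι] in
theorem sp_mono (vec : ι → M) {I J : Finset ι} (h : I ⊆ J) : sp K vec I ≤ sp K vec J :=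
  span_mono (Set.image_mono (coe_subset.2 h))

omit [DecidableEq ι] in
theorem mem_sp (vec : ι → M) {I : Finset ι} {e : ι} (h : e ∈ I) : vec e ∈ sp K vec I :=
  subset_span ⟨e, mem_coe.2 h, rfl⟩

omit [DecidableEq ι] in
theorem sp_le (vec : ι → M) {I : Finset ι} {N : Submodule K M} (h : ∀ e ∈ I, vec e ∈ N) :
    sp K vec I ≤ N := span_le.2 (by rintro _ ⟨e, he, rfl⟩; exact h e (mem_coe.1 he))

theorem sp_insert (vec : ι → M) (I : Finset ι) (e : ι) :
    sp K vec (insert e I) = span K (insert (vec e) (vec '' (I : Set ι))) := by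
  rw [sp, coe_insert, Set.image_insert_eq]

theorem sp_union (vec : ι → M) (I J : Finset ι) :
    sp K vec (I ∪ J) = sp K vec I ⊔ sp K vec J := by
  rw [sp, coe_union, Set.image_union, span_union]

/-- exchange -/
theorem exists_swap (vec : ι → M) (J : Finset ι) (a : ι) (ha : vec a ∉ sp K vec J) :
    ∀ B : Finset ι, vec a ∈ sp K vec (J ∪ B) →
      ∃ b ∈ B, vec b ∈ sp K vec (insert a (J ∪ B.erase b)) := by
  intro B
  induction B using Finset.induction_on with
  | empty => intro h; exact absurd (by simpa using h) ha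
  | insert b B hb ih =>
    intro h
    by_cases h1 : vec a ∈ sp K vec (J ∪ B)
    · obtain ⟨c, hc, h2⟩ := ih h1
      refine ⟨c, mem_insert_of_mem hc, sp_mono vec ?_ h2⟩
      exact insert_subset_insert _ (union_subset_union subset_rfl
        (erase_subset_erase _ (subset_insert _ _)))
    · refine ⟨b, mem_insert_self _ _, ?_⟩
      rw [erase_insert hb, sp_insert]
      rw [union_insert, sp_insert] at h
      exact mem_span_insert_exchange h h1

/-- `J` is a conflict free subset of `E` -/
def Free (cf : ι → ι → Prop) (E : Set ι) (J : Finset ι) : Prop :=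
  (∀ e ∈ J, e ∈ E) ∧ ∀ e ∈ J, ∀ f ∈ J, e ≠ f → ¬ cf e f

theorem haxell_aux (vec : ι → M) (cf : ι → ι → Prop) (hs : ∀ e f, cf e f → cf f e) :
    ∀ (n : ℕ) (E : Set ι) (I : Finset ι), I.card = n → Free cf E I →
      (∀ J : Finset ι, Free cf E J → J.card = I.card → sp K vec J = sp K vec I →
        ∀ a ∈ E, vec a ∉ sp K vec I → ∃ e ∈ J, cf e a) →
      ∃ (J Z : Finset ι) (m : ℕ), J.card + m = I.card ∧ (∀ z ∈ Z, z ∈ E) ∧ Z.card ≤ 2 * m ∧
        ∀ e ∈ E, vec e ∉ sp K vec J → ∃ z ∈ Z, cf z e := by
  classical
  intro n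
  induction n using Nat.strong_induction_on with
  | _ n ih =>
    intro E I hn hI hna
    by_cases hall : ∀ e ∈ E, vec e ∈ sp K vec I
    · exact ⟨I, ∅, 0, rfl, by simp, by simp, fun e he h => absurd (hall e he) h⟩
    push Not at hall
    obtain ⟨a, haE, ha⟩ := hall
    have hex : ∃ k, ∃ J : Finset ι, (Free cf E J ∧ J.card = I.card ∧ sp K vec J = sp K vec I) ∧
        (J.filter fun e => cf e a).card = k := ⟨_, I, ⟨hI, rfl, rfl⟩, rfl⟩
    obtain ⟨J, ⟨hJ, hJc, hJs⟩, hJk⟩ := Nat.find_spec hex
    have hmin : ∀ J' : Finset ι, Free cf E J' → J'.card = I.card → sp K vec J' = sp K vec I →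
        (J.filter fun e => cf e a).card ≤ (J'.filter fun e => cf e a).card := fun J' h1 h2 h3 =>
      hJk ▸ Nat.find_min' hex ⟨J', ⟨h1, h2, h3⟩, rfl⟩
    set B := J.filter fun e => cf e a with hB
    have hBJ : B ⊆ J := filter_subset _ _
    have hBa : ∀ b ∈ B, cf b a := fun b hb => (mem_filter.1 hb).2
    have hBne : 0 < B.card := by
      obtain ⟨e, he, h⟩ := hna J hJ hJc hJs a haE ha
      exact card_pos.2 ⟨e, mem_filter.2 ⟨he, h⟩⟩
    have hcard : (J \ B).card + B.card = I.card := by rw [card_sdiff_add_card_eq_card hBJ, hJc]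
    let E' : Set ι := {e | e ∈ E ∧ ¬ cf e a ∧ ∀ b ∈ B, ¬ cf b e}
    have hI' : Free cf E' (J \ B) := by
      refine ⟨fun e he => ?_, fun e he f hf => hJ.2 e (mem_sdiff.1 he).1 f (mem_sdiff.1 hf).1⟩
      obtain ⟨h1, h2⟩ := mem_sdiff.1 he
      exact ⟨hJ.1 e h1, fun h => h2 (mem_filter.2 ⟨h1, h⟩),
        fun b hb => hJ.2 b (hBJ hb) e h1 fun h => h2 (h ▸ hb)⟩
    obtain ⟨J0, Z, m, h1, h2, h3, h4⟩ := ih (J \ B).card (by omega) E' (J \ B) rfl hI' (by
      intro J' hJ' hc hsp a' ha' hn'
      by_contra hcon
      push Not at hcon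
      have hdisj : Disjoint J' B := disjoint_left.2 fun e he hb => (hJ'.1 e he).2.1 (hBa e hb)
      have hfree : Free cf E (insert a' (J' ∪ B)) := by
        have q1 : ∀ e ∈ J' ∪ B, ¬ cf e a' := fun e he => by
          rcases mem_union.1 he with he | he
          exacts [hcon e he, ha'.2.2 e he]
        refine ⟨fun e he => ?_, fun e he f hf hef => ?_⟩
        · rcases mem_insert.1 he with rfl | he
          · exact ha'.1
          · rcases mem_union.1 he with he | he
            exacts [(hJ'.1 e he).1, hJ.1 e (hBJ he)]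
        · rcases mem_insert.1 he with h1 | he <;> rcases mem_insert.1 hf with h2 | hf
          · exact absurd (h1.trans h2.symm) hef
          · exact fun h => q1 f hf (hs _ _ (h1 ▸ h))
          · exact h2 ▸ q1 e he
          · rcases mem_union.1 he with he | he <;> rcases mem_union.1 hf with hf | hf
            · exact hJ'.2 e he f hf hef
            · exact fun h => (hJ'.1 e he).2.2 f hf (hs _ _ h)
            · exact (hJ'.1 f hf).2.2 e he
            · exact hJ.2 e (hBJ he) f (hBJ hf) hef
      have hsub : ∀ J'' : Finset ι, J'' ⊆ insert a' (J' ∪ B) → Free cf E J'' := fun J'' h =>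
        ⟨fun e he => hfree.1 e (h he), fun e he f hf => hfree.2 e (h he) f (h hf)⟩
      have hsp2 : sp K vec (J' ∪ B) = sp K vec I := by
        rw [sp_union, hsp, ← sp_union, sdiff_union_of_subset hBJ, hJs]
      have hc2 : (J' ∪ B).card = I.card := by rw [card_union_of_disjoint hdisj, hc, hcard]
      have ha'J : a' ∉ J' := fun h => hn' (hsp ▸ mem_sp vec h)
      have ha'B : a' ∉ B := fun h => ha'.2.1 (hBa _ h)
      by_cases hin : vec a' ∈ sp K vec I
      · obtain ⟨b, hb, hb'⟩ := exists_swap vec J' a' (hsp ▸ hn') B (hsp2 ▸ hin)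
        have hss : insert a' (J' ∪ B.erase b) ⊆ insert a' (J' ∪ B) :=
          insert_subset_insert _ (union_subset_union subset_rfl (erase_subset _ _))
        have hc3 : (insert a' (J' ∪ B.erase b)).card = I.card := by
          rw [card_insert_of_notMem (fun h => by
            rcases mem_union.1 h with h | h
            exacts [ha'J h, ha'B (mem_of_mem_erase h)]),
            card_union_of_disjoint (hdisj.mono_right (erase_subset _ _)), card_erase_of_mem hb, hc]
          omega
        have hsp3 : sp K vec (insert a' (J' ∪ B.erase b)) = sp K vec I := by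
          refine le_antisymm (sp_le vec fun e he => ?_) (hsp2 ▸ sp_le vec fun e he => ?_)
          · rcases mem_insert.1 (hss he) with rfl | he
            · exact hin
            · exact hsp2 ▸ mem_sp vec he
          · by_cases heb : e = b
            · exact heb ▸ hb'
            · refine mem_sp vec (mem_insert_of_mem ?_)
              rcases mem_union.1 he with he | he
              · exact mem_union_left _ he
              · exact mem_union_right _ (mem_erase.2 ⟨heb, he⟩)
        have h5 := hmin _ (hsub _ hss) hc3 hsp3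
        have h6 : ((insert a' (J' ∪ B.erase b)).filter fun e => cf e a) ⊆ B.erase b := by
          intro e he
          obtain ⟨he, hea⟩ := mem_filter.1 he
          rcases mem_insert.1 he with rfl | he
          · exact absurd hea ha'.2.1
          · rcases mem_union.1 he with he | he
            · exact absurd hea (hJ'.1 e he).2.1
            · exact he
        have h7 := card_le_card h6
        rw [card_erase_of_mem hb] at h7
        omega
      · obtain ⟨e, he, h⟩ := hna _ (hsub _ (subset_insert _ _)) hc2 hsp2 a' ha'.1 hin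
        rcases mem_union.1 he with he | he
        exacts [hcon e he h, ha'.2.2 e he h])
    refine ⟨J0, insert a (Z ∪ B), m + B.card, by omega, fun z hz => ?_, ?_, fun e he hn' => ?_⟩
    · rcases mem_insert.1 hz with rfl | hz
      · exact haE
      · rcases mem_union.1 hz with hz | hz
        exacts [(h2 z hz).1, hJ.1 z (hBJ hz)]
    · have := card_insert_le a (Z ∪ B)
      have := card_union_le Z B
      omega
    · by_cases h5 : e ∈ E'
      · obtain ⟨z, hz, h⟩ := h4 e h5 hn'
        exact ⟨z, mem_insert_of_mem (mem_union_left _ hz), h⟩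
      · by_cases h6 : cf e a
        · exact ⟨a, mem_insert_self _ _, hs _ _ h6⟩
        · by_contra hcon
          push Not at hcon
          exact h5 ⟨he, h6, fun b hb => hcon b (mem_insert_of_mem (mem_union_right _ hb))⟩

/-- **Matroid form of Haxell's theorem.** -/
theorem haxell [FiniteDimensional K M] (vec : ι → M) (cf : ι → ι → Prop)
    (hs : ∀ e f, cf e f → cf f e) (E : Set ι) :
    ∃ (I J Z : Finset ι) (m : ℕ), Free cf E I ∧ I.card ≤ finrank K (sp K vec I) ∧
      J.card + m = I.card ∧ (∀ z ∈ Z, z ∈ E) ∧ Z.card ≤ 2 * m ∧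
      ∀ e ∈ E, vec e ∉ sp K vec J → ∃ z ∈ Z, cf z e := by
  classical
  let P : ℕ → Prop := fun k => ∃ I : Finset ι, Free cf E I ∧ I.card ≤ finrank K (sp K vec I) ∧
    I.card = k
  have h0 : P 0 := ⟨∅, ⟨by simp, by simp⟩, by simp, rfl⟩
  obtain ⟨I, hI, hr, hc⟩ := Nat.findGreatest_spec (n := finrank K M) (Nat.zero_le _) h0
  obtain ⟨J, Z, m, h⟩ := haxell_aux (K := K) vec cf hs _ E I rfl hI (by
    intro J hJ hJc hJs a ha hn
    by_contra hcon
    push Not at hcon
    have haJ : a ∉ J := fun h => hn (hJs ▸ mem_sp vec h)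
    have h1 : finrank K (sp K vec J) < finrank K (sp K vec (insert a J)) :=
      finrank_lt_finrank_of_lt (lt_of_le_of_ne (sp_mono vec (subset_insert _ _)) fun h =>
        hn (hJs ▸ h ▸ mem_sp vec (mem_insert_self _ _)))
    have h2 : (insert a J).card = I.card + 1 := by rw [card_insert_of_notMem haJ, hJc]
    rw [hJs] at h1
    have h3 := finrank_le (sp K vec (insert a J))
    refine Nat.findGreatest_is_greatest (P := P) (n := finrank K M) (k := I.card + 1)
      (by omega) (by omega) ⟨insert a J, ⟨fun e he => ?_, fun e he f hf hef => ?_⟩, by omega, h2⟩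
    · rcases mem_insert.1 he with rfl | he
      exacts [ha, hJ.1 e he]
    · rcases mem_insert.1 he with h1 | he <;> rcases mem_insert.1 hf with h2 | hf
      · exact absurd (h1.trans h2.symm) hef
      · exact fun h => hcon f hf (hs _ _ (h1 ▸ h))
      · exact h2 ▸ hcon e he
      · exact hJ.2 e he f hf hef)
  exact ⟨I, J, Z, m, hI, hr, h⟩

end Pool.Agent.P.MP_01accb_co.HV
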