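import Pool.Agent.P.MP_01accb_co.HV.Link
import Pool.Agent.P.MP_01accb_co.HV.Haxell

/-! Disjoint links that connect all centres. -/

set_option autoImplicit false

namespace Pool.Agent.P.MP_01accb_co.HV

open Finset Equiv Classical Module

variable {V : Type} {X : SimpleGraph V} {T : Finset (Perm V)}

/-- counting the vertices that cannot be used -/
theorem Rods.count [Fintype V] (h : Rods X T) (hT : 0 < T.card) {W U : Finset V} {L : ℕ}
    (hL : ∀ v, (nb T v ∩ W).card ≤ L) (hUW : ∀ v ∈ U, v ∉ W) (φ : V → V) (hφW : ∀ x, φ x ∈ W)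
    (hφ : ∀ w ∈ W, φ w = w) (hφn : ∀ x, φ x = x ∨ φ x ∈ nb T x) :
    ∃ B : Finset V, B.card ≤ (9 + 16 * L) * U.card ∧
      (W.filter fun w => w ∈ B).card * T.card ≤ 8 * L * U.card ∧
      ∀ x, x ∉ B → x ∉ U ∧ 8 * (nb T x ∩ U).card < T.card ∧
        8 * (nb T (φ x) ∩ U).card < T.card := by
  let H := univ.filter fun v => T.card ≤ 8 * (nb T v ∩ U).card
  let HW := W.filter fun v => T.card ≤ 8 * (nb T v ∩ U).card
  let H' := univ.filter fun v => φ v ∈ HW
  have h1 : H.card ≤ 8 * U.card := by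
    have a1 := card_nsmul_le_sum H (fun v => 8 * (nb T v ∩ U).card) T.card
      fun v hv => (mem_filter.1 hv).2
    rw [← mul_sum, h.double, smul_eq_mul] at a1
    have a2 := sum_le_card_nsmul U (fun u => (nb T u ∩ H).card) T.card
      fun u _ => (card_le_card inter_subset_left).trans (h.card_nb u).le
    rw [smul_eq_mul] at a2
    refine Nat.le_of_mul_le_mul_right ?_ hT
    rw [mul_assoc]
    omega
  have h2 : HW.card * T.card ≤ 8 * L * U.card := by
    have a1 := card_nsmul_le_sum HW (fun v => 8 * (nb T v ∩ U).card) T.card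
      fun v hv => (mem_filter.1 hv).2
    rw [← mul_sum, h.double, smul_eq_mul] at a1
    have a2 := sum_le_card_nsmul U (fun u => (nb T u ∩ HW).card) L
      fun u _ => (card_le_card (inter_subset_inter_left (filter_subset _ _))).trans (hL u)
    rw [smul_eq_mul] at a2
    rw [mul_assoc, mul_comm L]
    omega
  have h3 : H'.card ≤ (T.card + 1) * HW.card := by
    refine card_le_mul_card_image_of_maps_to (f := φ) (fun v hv => (mem_filter.1 hv).2) _
      fun w _ => ?_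
    refine (card_le_card (t := insert w (nb T w)) fun v hv => ?_).trans
      ((card_insert_le _ _).trans (by rw [h.card_nb]))
    obtain ⟨-, rfl⟩ := mem_filter.1 hv
    rcases hφn v with e | e
    · rw [e]; exact mem_insert_self _ _
    · exact mem_insert_of_mem (h.symm _ _ e)
  refine ⟨U ∪ H ∪ H', ?_, le_trans (Nat.mul_le_mul_right _ (card_le_card fun w hw => ?_)) h2,
    fun x hx => ?_⟩
  · have a1 := card_union_le (U ∪ H) H'
    have a2 := card_union_le U H
    have a3 : HW.card ≤ HW.card * T.card := Nat.le_mul_of_pos_right _ hT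
    nlinarith
  · obtain ⟨hw, hB⟩ := mem_filter.1 hw
    simp only [mem_union] at hB
    rcases hB with (hB | hB) | hB
    · exact absurd hw (hUW w hB)
    · exact mem_filter.2 ⟨hw, (mem_filter.1 hB).2⟩
    · simpa [hφ w hw] using (mem_filter.1 hB).2
  · simp only [mem_union, not_or, H, H', HW, mem_filter, mem_univ, true_and, hφW x, not_le] at hx
    exact ⟨hx.1.1, hx.1.2, hx.2⟩

/-- adjacent usable vertices in different stars give a link -/
theorem Rods.link' (h : Rods X T) {W U : Finset V} {L : ℕ} (hd : 8 * (L + 7) ≤ T.card)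
    (hL : ∀ v, (nb T v ∩ W).card ≤ L) (φ : V → V) (hφW : ∀ x, φ x ∈ W)
    (hφ : ∀ w ∈ W, φ w = w) (hφn : ∀ x, φ x = x ∨ φ x ∈ nb T x) {x y : V} (hxy : X.Adj x y)
    (hne : φ x ≠ φ y)
    (hx : x ∉ U ∧ 8 * (nb T x ∩ U).card < T.card ∧ 8 * (nb T (φ x) ∩ U).card < T.card)
    (hy : y ∉ U ∧ 8 * (nb T y ∩ U).card < T.card ∧ 8 * (nb T (φ y) ∩ U).card < T.card) :
    ∃ e : Lk V, e.Ok X T W ∧ e.a = φ x ∧ e.b = φ y ∧ ∀ v ∈ e.res, v ∉ U := by
  have hadj : ∀ z, z ∉ W → X.Adj z (φ z) := fun z hz =>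
    h.adj_of_mem ((hφn z).resolve_left fun e => hz (e ▸ hφW z))
  have hn : ∀ z, z ∉ W → ∀ z', φ z' ≠ z := fun z hz z' e => hz (e ▸ hφW z')
  by_cases h1 : x ∈ W <;> by_cases h2 : y ∈ W
  · refine h.link (mid := []) hd hL (hφW x) (hφW y) ?_ (by simpa using hne) (by simp) (by simp)
      (by simpa using ⟨hx.2.2, hy.2.2⟩)
    simpa [hφ x h1, hφ y h2] using hxy
  · refine h.link (mid := [y]) hd hL (hφW x) (hφW y) ?_ ?_ (by simp) (by simpa using ⟨hy.1, h2⟩)
      (by simpa using ⟨hx.2.2, hy.2.1, hy.2.2⟩)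
    · simpa [hφ x h1] using ⟨hxy, hadj y h2⟩
    · simpa using ⟨⟨hn y h2 x, hne⟩, (hn y h2 y).symm⟩
  · refine h.link (mid := [x]) hd hL (hφW x) (hφW y) ?_ ?_ (by simp) (by simpa using ⟨hx.1, h1⟩)
      (by simpa using ⟨hx.2.2, hx.2.1, hy.2.2⟩)
    · simpa [hφ y h2] using ⟨(hadj x h1).symm, hxy⟩
    · simpa using ⟨⟨hn x h1 x, hne⟩, (hn x h1 y).symm⟩
  · refine h.link (mid := [x, y]) hd hL (hφW x) (hφW y) ?_ ?_ (by simp)
      (by simpa using ⟨⟨hx.1, h1⟩, hy.1, h2⟩)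
      (by simpa using ⟨hx.2.2, hx.2.1, hy.2.1, hy.2.2⟩)
    · simpa using ⟨(hadj x h1).symm, hxy, hadj y h2⟩
    · simpa using ⟨⟨hn x h1 x, hn y h2 x, hne⟩, ⟨hxy.ne, (hn x h1 y).symm⟩, (hn y h2 y).symm⟩

/-- a translate of the skeleton meets few unusable vertices -/
theorem Rods.translate [Fintype V] [Nonempty V] (h : Rods X T) (Γ : Type) [Group Γ] [Fintype Γ]
    [MulAction Γ V] [MulAction.IsPretransitive Γ V] {W : Finset V} {L : ℕ}
    (hL : ∀ v, (nb T v ∩ W).card ≤ L) (φ : V → V) {R : Finset (V × V)} (hR : R.card ≤ W.card)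
    (B : Finset V) :
    ∃ g : Γ, ((R.filter fun p => g • φ p.1 ∈ B).card + (R.filter fun p => g • p.1 ∈ B).card +
      (R.filter fun p => g • p.2 ∈ B).card + (R.filter fun p => g • φ p.2 ∈ B).card +
      L * (W.filter fun w => g • w ∈ B).card) * T.card ≤ B.card * ((4 + L) * L) := by
  have hW : W.card * T.card ≤ L * Fintype.card V := by
    have a1 := h.double W univ
    simp only [inter_univ, h.card_nb, sum_const, smul_eq_mul] at a1
    have a2 := sum_le_card_nsmul univ (fun u => (nb T u ∩ W).card) L fun u _ => hL u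
    rw [card_univ, smul_eq_mul, mul_comm] at a2
    omega
  obtain ⟨g, -, hg⟩ := exists_le_of_sum_le (s := (univ : Finset Γ)) univ_nonempty
    (f := fun g => ((R.filter fun p => g • φ p.1 ∈ B).card + (R.filter fun p => g • p.1 ∈ B).card +
      (R.filter fun p => g • p.2 ∈ B).card + (R.filter fun p => g • φ p.2 ∈ B).card +
      L * (W.filter fun w => g • w ∈ B).card) * Fintype.card V)
    (g := fun _ => B.card * ((4 + L) * W.card)) (by
      have a1 := sum_hits (Γ := Γ) R (fun p => φ p.1) B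
      have a2 := sum_hits (Γ := Γ) R (fun p => p.1) B
      have a3 := sum_hits (Γ := Γ) R (fun p => p.2) B
      have a4 := sum_hits (Γ := Γ) R (fun p => φ p.2) B
      have a5 := sum_hits (Γ := Γ) W (fun w => w) B
      rw [← sum_mul]
      simp only [sum_add_distrib, ← mul_sum, add_mul, mul_assoc L]
      rw [a1, a2, a3, a4, a5]
      simp only [sum_const, card_univ, smul_eq_mul]
      have a6 := Nat.mul_le_mul_right (B.card * Fintype.card Γ) hR
      nlinarith)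
  refine ⟨g, Nat.le_of_mul_le_mul_right ?_ (Fintype.card_pos (α := V))⟩
  calc _ = _ * Fintype.card V * T.card := mul_right_comm _ _ _
    _ ≤ B.card * ((4 + L) * W.card) * T.card := Nat.mul_le_mul_right _ hg
    _ = B.card * (4 + L) * (W.card * T.card) := by ring
    _ ≤ B.card * (4 + L) * (L * Fintype.card V) := Nat.mul_le_mul_left _ hW
    _ = _ := by ring

theorem Rods.links [Fintype V] [Nonempty V] (h : Rods X T) (hX : X.Preconnected) (Γ : Type)
    [Group Γ] [Fintype Γ] [MulAction Γ V] [MulAction.IsPretransitive Γ V]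
    (hadj : ∀ (g : Γ) (u v : V), X.Adj u v → X.Adj (g • u) (g • v))
    (heq : ∀ τ ∈ T, ∀ (g : Γ) (x : V), τ (g • x) = g • τ x) {W : Finset V} {L : ℕ}
    (hW : ∀ v, (nb T v ∩ W).Nonempty) (hL : ∀ v, (nb T v ∩ W).card ≤ L)
    (hd : 8 * (L + 7) ≤ T.card) (hd' : 16 * (8 * L + (9 + 16 * L) * ((4 + L) * L)) ≤ T.card) :
    ∃ I : Finset (Lk V), (∀ e ∈ I, e.Ok X T W) ∧
      (∀ e ∈ I, ∀ f ∈ I, e ≠ f → ¬ ∃ v, v ∈ e.res ∧ v ∈ f.res) ∧
      ∀ C : Finset V, C ⊆ W → C.Nonempty → C ≠ W →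
        ∃ e ∈ I, (e.a ∈ C ∧ e.b ∉ C) ∨ (e.b ∈ C ∧ e.a ∉ C) := by
  have hT : 0 < T.card := by omega
  choose ψ hψ using hW
  have hψn : ∀ x, ψ x ∈ nb T x := fun x => (mem_inter.1 (hψ x)).1
  have hψW : ∀ x, ψ x ∈ W := fun x => (mem_inter.1 (hψ x)).2
  obtain ⟨φ, hφW, hφ, hφn⟩ : ∃ φ : V → V, (∀ x, φ x ∈ W) ∧ (∀ w ∈ W, φ w = w) ∧
      ∀ x, φ x = x ∨ φ x ∈ nb T x := by
    refine ⟨fun x => if x ∈ W then x else ψ x, fun x => ?_, fun w hw => if_pos hw, fun x => ?_⟩
    · by_cases hx : x ∈ W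
      · simpa only [if_pos hx] using hx
      · simpa only [if_neg hx] using hψW x
    · by_cases hx : x ∈ W
      · exact Or.inl (if_pos hx)
      · exact Or.inr (by simpa only [if_neg hx] using hψn x)
  let δ : V → V → ℚ := fun x => Pi.single x 1
  let vec : Lk V → V → ℚ := fun e => δ e.a - δ e.b
  obtain ⟨I, J, Z, m, hI, hr, hJ, hZ, hZc, hcert⟩ := haxell (K := ℚ) vec
    (fun e f => ∃ v, v ∈ e.res ∧ v ∈ f.res) (fun e f ⟨v, h1, h2⟩ => ⟨v, h2, h1⟩)
    {e | e.Ok X T W}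
  refine ⟨I, hI.1, hI.2, fun C hCW ⟨w0, hw0⟩ hC => ?_⟩
  by_contra hcon
  obtain ⟨w1, hw1, hw1'⟩ := exists_of_ssubset (hCW.ssubset_of_ne hC)
  have hout : δ w0 - δ w1 ∉ sp ℚ vec I := by
    let χ : (V → ℚ) →ₗ[ℚ] ℚ := ∑ x ∈ C, LinearMap.proj x
    have hχ : ∀ x, χ (δ x) = if x ∈ C then 1 else 0 := fun x => by
      simp only [χ, δ, LinearMap.sum_apply, LinearMap.proj_apply]
      exact sum_pi_single' x 1 C
    intro hm
    have : sp ℚ vec I ≤ LinearMap.ker χ := sp_le vec fun e he => by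
      rw [LinearMap.mem_ker, map_sub, hχ, hχ]
      by_cases h1 : e.a ∈ C <;> by_cases h2 : e.b ∈ C
      · simp [h1, h2]
      · exact absurd ⟨e, he, Or.inl ⟨h1, h2⟩⟩ hcon
      · exact absurd ⟨e, he, Or.inr ⟨h2, h1⟩⟩ hcon
      · simp [h1, h2]
    have h1 := this hm
    rw [LinearMap.mem_ker, map_sub, hχ, hχ, if_pos hw0, if_neg hw1'] at h1
    simp at h1
  let U := Z.biUnion fun e => e.res.toFinset
  have hUc : U.card ≤ 16 * m := by
    have a1 := sum_le_card_nsmul Z (fun e => e.res.toFinset.card) 8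
      fun e he => (List.toFinset_card_le _).trans (Lk.Ok.card (hZ e he))
    have a2 : U.card ≤ _ := card_biUnion_le
    rw [smul_eq_mul] at a1
    omega
  have hUW : ∀ v ∈ U, v ∉ W := fun v hv => by
    obtain ⟨e, he, hv⟩ := mem_biUnion.1 hv
    exact Lk.Ok.out (hZ e he) v (List.mem_toFinset.1 hv)
  obtain ⟨B, hB1, hB2, hB3⟩ := h.count hT hL hUW φ hφW hφ hφn
  have hlink : ∀ x y, x ∉ B → y ∉ B → (x = y ∨ X.Adj x y) → δ (φ x) - δ (φ y) ∈ sp ℚ vec J := by
    intro x y hx hy hxy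
    by_cases hne : φ x = φ y
    · rw [hne, sub_self]; exact zero_mem _
    · obtain ⟨e, he, ea, eb, hU⟩ := h.link' hd hL φ hφW hφ hφn
        (hxy.resolve_left fun e => hne (e ▸ rfl)) hne (hB3 x hx) (hB3 y hy)
      by_contra hn
      obtain ⟨z, hz, v, h1, h2⟩ := hcert e he (by simpa only [vec, ea, eb] using hn)
      exact hU v h2 (mem_biUnion.2 ⟨z, hz, List.mem_toFinset.2 h1⟩)
  obtain ⟨R, hR1, hR2, hR3⟩ := skeleton hX ⟨w1, hw1⟩ φ hφW hφ
  obtain ⟨g, hg⟩ := h.translate Γ hL φ hR1 B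
  let t : V → V := fun w => g • ψ (g⁻¹ • w)
  have ht : ∀ w, t w ∈ nb T w := fun w => by
    obtain ⟨τ, hτ, e⟩ := mem_nb.1 (hψn (g⁻¹ • w))
    refine mem_nb.2 ⟨τ, hτ, ?_⟩
    simp only [t, ← e, ← heq τ hτ, smul_inv_smul]
  let R' := R.filter fun p => g • φ p.1 ∈ B ∨ g • p.1 ∈ B ∨ g • p.2 ∈ B ∨ g • φ p.2 ∈ B
  let W' := W.filter fun w => w ∈ B ∨ t w ∈ B
  let Ex : Finset (V → ℚ) := R'.image (fun p => δ (φ (g • φ p.1)) - δ (φ (g • φ p.2))) ∪
    W'.image fun w => δ w - δ (φ (t w))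
  have c1 : R'.card ≤ (R.filter fun p => g • φ p.1 ∈ B).card +
      (R.filter fun p => g • p.1 ∈ B).card + (R.filter fun p => g • p.2 ∈ B).card +
      (R.filter fun p => g • φ p.2 ∈ B).card := by
    simp only [R', filter_or]
    refine (card_union_le _ _).trans ?_
    rw [add_assoc, add_assoc]
    exact Nat.add_le_add_left ((card_union_le _ _).trans
      (Nat.add_le_add_left (card_union_le _ _) _)) _
  have c2 : W'.card ≤ (W.filter fun w => w ∈ B).card +
      L * (W.filter fun w => g • w ∈ B).card := by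
    simp only [W', filter_or]
    refine (card_union_le _ _).trans (Nat.add_le_add_left ?_ _)
    refine card_le_mul_card_image_of_maps_to (f := fun w => ψ (g⁻¹ • w))
      (s := W.filter fun w => t w ∈ B) (t := W.filter fun w => g • w ∈ B)
      (fun w hw => mem_filter.2 ⟨hψW _, (mem_filter.1 hw).2⟩) _ fun b _ => ?_
    refine le_trans (card_le_card fun w hw => ?_) (hL (g • b))
    obtain ⟨h1, rfl⟩ := mem_filter.1 hw
    exact mem_inter.2 ⟨h.symm _ _ (ht w), (mem_filter.1 h1).1⟩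
  have c3 : Ex.card ≤ m := by
    have a1 : Ex.card ≤ R'.card + W'.card :=
      (card_union_le _ _).trans (Nat.add_le_add card_image_le card_image_le)
    refine a1.trans (Nat.le_of_mul_le_mul_right ?_ hT)
    have a2 := Nat.mul_le_mul_right T.card (Nat.add_le_add c1 c2)
    have a3 := Nat.mul_le_mul_right ((4 + L) * L) hB1
    have a4 := Nat.mul_le_mul_left (8 * L + (9 + 16 * L) * ((4 + L) * L)) hUc
    have a5 := Nat.mul_le_mul_left m hd'
    nlinarith
  let N : Submodule ℚ (V → ℚ) := sp ℚ vec J ⊔ Submodule.span ℚ (Ex : Set (V → ℚ))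
  have hN1 : ∀ v ∈ sp ℚ vec J, v ∈ N := fun v hv => Submodule.mem_sup_left hv
  have hN2 : ∀ v ∈ Ex, v ∈ N := fun v hv => Submodule.mem_sup_right (Submodule.subset_span hv)
  have hφa : ∀ x, g • φ x = g • x ∨ X.Adj (g • φ x) (g • x) := fun x =>
    (hφn x).imp (fun e => by rw [e]) fun e => hadj g _ _ (h.adj_of_mem e).symm
  have k1 := hR3 (fun u v => δ (φ (g • u)) - δ (φ (g • v)) ∈ N)
    ⟨fun u => by rw [sub_self]; exact zero_mem _, fun h => by simpa using neg_mem h,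
      fun h h' => by simpa using add_mem h h'⟩ fun p hp => by
      by_cases hb : p ∈ R'
      · exact hN2 _ (mem_union_left _ (mem_image_of_mem _ hb))
      · have hb' : ¬ (g • φ p.1 ∈ B ∨ g • p.1 ∈ B ∨ g • p.2 ∈ B ∨ g • φ p.2 ∈ B) :=
          fun h => hb (mem_filter.2 ⟨hp, h⟩)
        simp only [not_or] at hb'
        have a1 := hlink _ _ hb'.1 hb'.2.1 (hφa p.1)
        have a2 := hlink _ _ hb'.2.1 hb'.2.2.1 (Or.inr (hadj g _ _ (hR2 p hp)))
        have a3 := hlink _ _ hb'.2.2.2 hb'.2.2.1 (hφa p.2)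
        simpa using hN1 _ (sub_mem (add_mem a1 a2) a3)
  have k2 : ∀ w ∈ W, δ w - δ (φ (t w)) ∈ N := fun w hw => by
    by_cases hb : w ∈ W'
    · exact hN2 _ (mem_union_right _ (mem_image_of_mem _ hb))
    · have hb' : ¬ (w ∈ B ∨ t w ∈ B) := fun h => hb (mem_filter.2 ⟨hw, h⟩)
      have a1 := hlink _ _ (not_or.1 hb').1 (not_or.1 hb').2 (Or.inr (h.adj_of_mem (ht w)))
      rw [hφ w hw] at a1
      exact hN1 _ a1
  have k3 : ∀ w ∈ W, ∀ w' ∈ W, δ w - δ w' ∈ N := fun w hw w' hw' => by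
    have a1 := sub_mem (add_mem (k2 w hw) (k1 _ (hψW (g⁻¹ • w)) _ (hψW (g⁻¹ • w')))) (k2 w' hw')
    simpa [t] using a1
  have f1 : finrank ℚ (sp ℚ vec I) < finrank ℚ N := by
    refine Submodule.finrank_lt_finrank_of_lt (lt_of_le_of_ne (sp_le vec fun e he =>
      k3 _ (Lk.Ok.ha (hI.1 e he)) _ (Lk.Ok.hb (hI.1 e he))) fun e => hout ?_)
    rw [e]
    exact k3 _ (hCW hw0) _ hw1
  have f2 : finrank ℚ (sp ℚ vec J) ≤ J.card := by
    rw [sp, ← coe_image]
    exact (finrank_span_finset_le_card _).trans card_image_le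
  have f3 : finrank ℚ (Submodule.span ℚ (Ex : Set (V → ℚ))) ≤ Ex.card :=
    finrank_span_finset_le_card _
  have f4 : finrank ℚ N ≤ _ := Submodule.finrank_add_le_finrank_add_finrank _ _
  omega

end Pool.Agent.P.MP_01accb_co.HV
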