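import Pool.Agent.P.MP_01accb_co.HV.Tour

/-! Neighbour maps, existence of links, skeletons and averaging. -/

set_option autoImplicit false

namespace Pool.Agent.P.MP_01accb_co.HV

open Finset Equiv Classical

variable {V : Type} {X : SimpleGraph V} {T : Finset (Perm V)}

/-- a symmetric family of maps that send every vertex to pairwise different neighbours -/
structure Rods (X : SimpleGraph V) (T : Finset (Perm V)) : Prop where
  adj : ∀ τ ∈ T, ∀ x, X.Adj x (τ x)
  inv : ∀ τ ∈ T, τ⁻¹ ∈ T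
  inj : ∀ τ ∈ T, ∀ τ' ∈ T, ∀ x, τ x = τ' x → τ = τ'

/-- the neighbours given by the maps -/
noncomputable def nb (T : Finset (Perm V)) (x : V) : Finset V := T.image fun τ => τ x

theorem mem_nb {x y : V} : y ∈ nb T x ↔ ∃ τ ∈ T, τ x = y := mem_image

theorem Rods.card_nb (h : Rods X T) (x : V) : (nb T x).card = T.card :=
  card_image_of_injOn fun τ hτ τ' hτ' e => h.inj τ hτ τ' hτ' x e

theorem Rods.symm (h : Rods X T) (x y : V) (hy : y ∈ nb T x) : x ∈ nb T y := by
  obtain ⟨τ, hτ, rfl⟩ := mem_nb.1 hy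
  exact mem_nb.2 ⟨τ⁻¹, h.inv τ hτ, by simp⟩

theorem Rods.adj_of_mem (h : Rods X T) {x y : V} (hy : y ∈ nb T x) : X.Adj x y := by
  obtain ⟨τ, hτ, rfl⟩ := mem_nb.1 hy
  exact h.adj τ hτ x

theorem Rods.card_filter_le (h : Rods X T) (x : V) (Q : Finset V) :
    (T.filter fun τ => τ x ∈ Q).card ≤ (nb T x ∩ Q).card :=
  card_le_card_of_injOn (fun τ => τ x)
    (fun τ hτ => by
      obtain ⟨h1, h2⟩ := mem_filter.1 (mem_coe.1 hτ)
      exact mem_coe.2 (mem_inter.2 ⟨mem_nb.2 ⟨τ, h1, rfl⟩, h2⟩))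
    fun τ hτ τ' hτ' e => h.inj τ (mem_filter.1 (mem_coe.1 hτ)).1 τ'
      (mem_filter.1 (mem_coe.1 hτ')).1 x e

theorem Rods.double (h : Rods X T) (A B : Finset V) :
    ∑ v ∈ A, (nb T v ∩ B).card = ∑ u ∈ B, (nb T u ∩ A).card := by
  have e : ∀ (v : V) (B : Finset V), (nb T v ∩ B).card = ∑ u ∈ B, if u ∈ nb T v then 1 else 0 :=
    fun v B => by rw [← card_filter, filter_mem_eq_inter, inter_comm]
  simp only [e]
  rw [sum_comm]
  exact sum_congr rfl fun u _ => sum_congr rfl fun v _ =>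
    if_congr ⟨h.symm _ _, h.symm _ _⟩ rfl rfl

theorem small {W U Q : Finset V} {L : ℕ} (hd : 8 * (L + 7) ≤ T.card) {v : V}
    (hL : (nb T v ∩ W).card ≤ L) (hv : 8 * (nb T v ∩ U).card < T.card) (hQ : Q.card ≤ 7) :
    4 * (nb T v ∩ (U ∪ W ∪ Q)).card < T.card := by
  rw [inter_union_distrib_left, inter_union_distrib_left]
  have h1 := card_union_le (nb T v ∩ U ∪ nb T v ∩ W) (nb T v ∩ Q)
  have h2 := card_union_le (nb T v ∩ U) (nb T v ∩ W)
  have h3 : (nb T v ∩ Q).card ≤ Q.card := card_le_card inter_subset_right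
  omega

theorem Rods.leaf (h : Rods X T) {W U Q : Finset V} {L : ℕ} (hd : 8 * (L + 7) ≤ T.card) {v : V}
    (hL : (nb T v ∩ W).card ≤ L) (hv : 8 * (nb T v ∩ U).card < T.card) (hQ : Q.card ≤ 7) :
    ∃ u, X.Adj v u ∧ u ∉ U ∧ u ∉ W ∧ u ∉ Q := by
  have h1 := small hd hL hv hQ
  obtain ⟨u, hu, hu'⟩ := exists_mem_notMem_of_card_lt_card
    (show (nb T v ∩ (U ∪ W ∪ Q)).card < (nb T v).card by rw [h.card_nb]; omega)
  have h2 : u ∉ U ∪ W ∪ Q := fun h => hu' (mem_inter.2 ⟨hu, h⟩)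
  simp only [mem_union, not_or] at h2
  exact ⟨u, h.adj_of_mem hu, h2.1.1, h2.1.2, h2.2⟩

/-- a short path of light vertices can be completed to a link that avoids `U` -/
theorem Rods.link (h : Rods X T) {W U : Finset V} {L : ℕ} (hd : 8 * (L + 7) ≤ T.card)
    (hL : ∀ v, (nb T v ∩ W).card ≤ L) {a b : V} {mid : List V} (ha : a ∈ W) (hb : b ∈ W)
    (hch : (a :: (mid ++ [b])).IsChain X.Adj) (hnd : (a :: (mid ++ [b])).Nodup)
    (hlen : mid.length ≤ 2) (hmid : ∀ v ∈ mid, v ∉ U ∧ v ∉ W)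
    (hv : ∀ v ∈ a :: (mid ++ [b]), 8 * (nb T v ∩ U).card < T.card) :
    ∃ e : Lk V, e.Ok X T W ∧ e.a = a ∧ e.b = b ∧ ∀ v ∈ e.res, v ∉ U := by
  set P := a :: (mid ++ [b]) with hP
  have hPl : P.length ≤ 4 := by simp [hP]; omega
  have hm : mid.toFinset.card ≤ 2 := (List.toFinset_card_le _).trans hlen
  obtain ⟨g, hg, hg'⟩ : ∃ g ∈ T, g ∉ P.toFinset.biUnion
      fun v => T.filter fun τ => τ v ∈ U ∪ W ∪ mid.toFinset := by
    refine exists_mem_notMem_of_card_lt_card (card_biUnion_le.trans_lt ?_)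
    have h1 := sum_le_card_nsmul P.toFinset
      (fun v => 4 * (T.filter fun τ => τ v ∈ U ∪ W ∪ mid.toFinset).card) (T.card - 1)
      fun v hv' => by
        have h2 := small (Q := mid.toFinset) hd (hL v) (hv v (List.mem_toFinset.1 hv')) (by omega)
        have h3 := h.card_filter_le v (U ∪ W ∪ mid.toFinset)
        omega
    rw [← mul_sum, smul_eq_mul] at h1
    have h4 := Nat.mul_le_mul_right (T.card - 1) ((List.toFinset_card_le P).trans hPl)
    omega
  have hgv : ∀ v ∈ P.map g, (v ∉ U ∧ v ∉ W) ∧ v ∉ mid := fun v hv => by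
    obtain ⟨x, hx, rfl⟩ := List.mem_map.1 hv
    have : g x ∉ U ∪ W ∪ mid.toFinset := fun h =>
      hg' (mem_biUnion.2 ⟨x, List.mem_toFinset.2 hx, mem_filter.2 ⟨hg, h⟩⟩)
    simpa only [mem_union, not_or, List.mem_toFinset] using this
  have hQ : (mid.toFinset ∪ (P.map g).toFinset).card ≤ 6 := by
    have h1 := card_union_le mid.toFinset (P.map g).toFinset
    have h2 := List.toFinset_card_le (P.map g)
    rw [List.length_map] at h2
    omega
  obtain ⟨la, a1, a2, a3, a4⟩ := h.leaf (Q := mid.toFinset ∪ (P.map g).toFinset) hd (hL a)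
    (hv a (by simp [hP])) (by omega)
  obtain ⟨lb, b1, b2, b3, b4⟩ := h.leaf (Q := insert la (mid.toFinset ∪ (P.map g).toFinset)) hd
    (hL b) (hv b (by simp [hP])) ((card_insert_le _ _).trans (by omega))
  simp only [mem_insert, mem_union, List.mem_toFinset, not_or] at a4 b4
  have hres : ∀ v ∈ mid ++ la :: lb :: P.map g, v ∉ U ∧ v ∉ W := fun v hv => by
    simp only [List.mem_append, List.mem_cons] at hv
    rcases hv with hv | rfl | rfl | hv
    exacts [hmid v hv, ⟨a2, a3⟩, ⟨b2, b3⟩, (hgv v hv).1]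
  refine ⟨⟨a, mid, b, g, la, lb⟩, ⟨ha, hb, hch, hg, a1, b1, ?_, fun v hv => (hres v hv).2, hlen⟩,
    rfl, rfl, fun v hv => (hres v hv).1⟩
  refine List.nodup_append.2 ⟨(List.nodup_append.1 (List.nodup_cons.1 hnd).2).1,
    List.nodup_cons.2 ⟨?_, List.nodup_cons.2 ⟨b4.2.2, hnd.map g.injective⟩⟩, ?_⟩
  · intro hh
    rcases List.mem_cons.1 hh with hh | hh
    exacts [b4.1 hh.symm, a4.2 hh]
  · rintro v hv _ hv' rfl
    simp only [List.mem_cons] at hv'
    rcases hv' with rfl | rfl | hv'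
    exacts [a4.1 hv, b4.2.1 hv, (hgv v hv').2 hv]

/-- few edges connect all centres -/
theorem skeleton (hX : X.Preconnected) {W : Finset V} (hne : W.Nonempty) (φ : V → V)
    (hφW : ∀ x, φ x ∈ W) (hφ : ∀ w ∈ W, φ w = w) :
    ∃ R : Finset (V × V), R.card ≤ W.card ∧ (∀ p ∈ R, X.Adj p.1 p.2) ∧
      ∀ r : V → V → Prop, Equivalence r → (∀ p ∈ R, r (φ p.1) (φ p.2)) →
        ∀ w ∈ W, ∀ w' ∈ W, r w w' := by
  obtain ⟨o, ho⟩ := hne
  have key : ∀ k, k + 1 ≤ W.card → ∃ C : Finset V, C ⊆ W ∧ C.card = k + 1 ∧ o ∈ C ∧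
      ∃ R : Finset (V × V), R.card ≤ k ∧ (∀ p ∈ R, X.Adj p.1 p.2) ∧
      ∀ r : V → V → Prop, Equivalence r → (∀ p ∈ R, r (φ p.1) (φ p.2)) → ∀ w ∈ C, r o w := by
    intro k
    induction k with
    | zero =>
      intro _
      refine ⟨{o}, by simpa using ho, by simp, by simp, ∅, by simp, by simp, fun r hr _ w hw => ?_⟩
      rw [mem_singleton.1 hw]
      exact hr.refl o
    | succ k ih =>
      intro hk
      obtain ⟨C, hCW, hC, hoC, R, h1, h2, h3⟩ := ih (by omega)
      obtain ⟨w, hw, hwC⟩ := exists_mem_notMem_of_card_lt_card (show C.card < W.card by omega)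
      obtain ⟨q⟩ := hX o w
      obtain ⟨dt, -, d1, d2⟩ := q.exists_boundary_dart {x | φ x ∈ C}
        (by simpa [hφ o ho] using hoC) (by simpa [hφ w hw] using hwC)
      refine ⟨insert (φ dt.snd) C, insert_subset (hφW _) hCW,
        by rw [card_insert_of_notMem d2, hC], mem_insert_of_mem hoC, insert (dt.fst, dt.snd) R,
        (card_insert_le _ _).trans (by omega), fun p hp => ?_, fun r hr h4 v hv => ?_⟩
      · rcases mem_insert.1 hp with rfl | hp
        exacts [dt.adj, h2 p hp]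
      · have h5 := h3 r hr fun p hp => h4 p (mem_insert_of_mem hp)
        rcases mem_insert.1 hv with rfl | hv
        exacts [hr.trans (h5 _ d1) (h4 _ (mem_insert_self _ _)), h5 v hv]
  have hpos := card_pos.2 ⟨o, ho⟩
  obtain ⟨C, hCW, hC, -, R, h1, h2, h3⟩ := key (W.card - 1) (by omega)
  obtain rfl : C = W := eq_of_subset_of_card_le hCW (by omega)
  exact ⟨R, by omega, h2, fun r hr h w hw w' hw' => hr.trans (hr.symm (h3 r hr h w hw))
    (h3 r hr h w' hw')⟩

/-- the average number of points that a translation moves into `B` -/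
theorem sum_hits [Fintype V] {Γ : Type} [Group Γ] [Fintype Γ] [MulAction Γ V]
    [MulAction.IsPretransitive Γ V] {ι : Type} (s : Finset ι) (π : ι → V) (B : Finset V) :
    (∑ g : Γ, (s.filter fun i => g • π i ∈ B).card) * Fintype.card V =
      s.card * B.card * Fintype.card Γ := by
  have e : ∀ v : V, (univ.filter fun g : Γ => g • v ∈ B).card * Fintype.card V =
      B.card * Fintype.card Γ := fun v => by
    rw [card_eq_sum_card_fiberwise (f := fun g : Γ => g • v) (t := B)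
      (s := univ.filter fun g : Γ => g • v ∈ B)
      (fun g hg => mem_coe.2 (mem_filter.1 (mem_coe.1 hg)).2), sum_mul, ← smul_eq_mul B.card, ← sum_const]
    refine sum_congr rfl fun y hy => ?_
    rw [← card_fiber_mul (Γ := Γ) v y, filter_filter]
    congr 2
    exact filter_congr fun g _ => ⟨fun h => h.2, fun h => ⟨h ▸ hy, h⟩⟩
  simp only [card_filter] at e ⊢
  rw [sum_comm, sum_mul, sum_congr rfl fun i _ => e (π i), sum_const, smul_eq_mul, mul_assoc]

end Pool.Agent.P.MP_01accb_co.HV
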