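import Mathlib

/-! The symmetric local lemma and sparse dominating sets. -/

set_option autoImplicit false

namespace Pool.Agent.P.MP_01accb_co.HV

open Finset

/-- The symmetric local lemma for a finite weighted space. -/
theorem lll {Ω ι : Type} [Fintype Ω] [Fintype ι] [DecidableEq ι] (w : Ω → ℝ) (hw : ∀ ω, 0 ≤ w ω)
    (hw1 : ∑ ω, w ω = 1) (A : ι → Ω → Prop) [∀ i ω, Decidable (A i ω)] (Γ : ι → Finset ι) (D : ℕ)
    (hD : 0 < D)
    (hΓ : ∀ i, (Γ i).card ≤ D) (p : ℝ) (hp : 4 * p * D ≤ 1)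
    (hind : ∀ i (S : Finset ι), Disjoint S (Γ i) →
      ∑ ω, (if A i ω ∧ ∀ j ∈ S, ¬ A j ω then w ω else 0) ≤
        p * ∑ ω, (if ∀ j ∈ S, ¬ A j ω then w ω else 0)) :
    ∃ ω, ∀ i, ¬ A i ω := by
  let Z : Finset ι → ℝ := fun S => ∑ ω, (if ∀ j ∈ S, ¬ A j ω then w ω else 0)
  have hZ0 : ∀ S, 0 ≤ Z S := fun S => sum_nonneg fun ω _ => by
    split_ifs
    · exact hw ω
    · exact le_rfl
  have hD' : (1 : ℝ) ≤ D := by exact_mod_cast hD
  set x : ℝ := 1 / (2 * D) with hx
  have hx0 : 0 ≤ x := by positivity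
  have hxD : x * D = 1 / 2 := by rw [hx]; field_simp
  have hx1 : x ≤ 1 / 2 := by nlinarith
  have hpx : 2 * p ≤ x := by
    rw [hx, le_div_iff₀ (by positivity)]
    linarith
  have key : ∀ S : Finset ι, ∀ i, (1 - x) * Z S ≤ Z (insert i S) := by
    intro S
    induction S using Finset.strongInduction with
    | H S ih =>
      intro i
      have h1 : Z S - Z (insert i S) ≤ p * Z (S \ Γ i) := by
        refine le_trans ?_ (hind i (S \ Γ i) sdiff_disjoint)
        rw [← sum_sub_distrib]
        refine sum_le_sum fun ω _ => ?_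
        have := hw ω
        by_cases h1 : ∀ j ∈ S, ¬ A j ω
        · by_cases h2 : A i ω
          · rw [if_pos h1, if_neg (fun h => h i (mem_insert_self _ _) h2),
              if_pos ⟨h2, fun j hj => h1 j (mem_sdiff.1 hj).1⟩, sub_zero]
          · rw [if_pos h1, if_pos (fun j hj => by
              rcases mem_insert.1 hj with rfl | hj
              exacts [h2, h1 j hj]), if_neg (fun h => h2 h.1), sub_self]
        · rw [if_neg h1, if_neg (fun h => h1 fun j hj => h j (mem_insert_of_mem hj)), sub_self]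
          split_ifs
          · exact this
          · exact le_rfl
      have h2 : ∀ S' : Finset ι, S' ⊆ S ∩ Γ i → (1 - x) ^ S'.card * Z (S \ Γ i) ≤
          Z (S' ∪ S \ Γ i) := by
        intro S'
        induction S' using Finset.induction_on with
        | empty => intro _; simp
        | insert j S' hj ih' =>
          intro hs
          have hj' := mem_inter.1 (hs (mem_insert_self _ _))
          have hs' : S' ⊆ S ∩ Γ i := (subset_insert _ _).trans hs
          have h3 : S' ∪ S \ Γ i ⊂ S := by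
            refine ⟨union_subset (hs'.trans inter_subset_left) sdiff_subset, fun h => ?_⟩
            rcases mem_union.1 (h hj'.1) with h | h
            · exact hj h
            · exact (mem_sdiff.1 h).2 hj'.2
          have h4 := ih _ h3 j
          rw [card_insert_of_notMem hj, insert_union, pow_succ', mul_assoc]
          exact (mul_le_mul_of_nonneg_left (ih' hs') (by linarith)).trans h4
      have h3 := h2 _ subset_rfl
      rw [union_comm, sdiff_union_inter] at h3
      have h4 : (1 : ℝ) + ((S ∩ Γ i).card : ℝ) * (-x) ≤ (1 + -x) ^ (S ∩ Γ i).card :=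
        one_add_mul_le_pow (by linarith) _
      have h5 : ((S ∩ Γ i).card : ℝ) ≤ D := by
        exact_mod_cast (card_le_card inter_subset_right).trans (hΓ i)
      have h6 : (1 : ℝ) / 2 ≤ (1 - x) ^ (S ∩ Γ i).card := by
        rw [sub_eq_add_neg]
        nlinarith
      have h7 := hZ0 (S \ Γ i)
      have h8 := hZ0 S
      have h9 : Z (S \ Γ i) ≤ 2 * Z S := by nlinarith
      nlinarith
  have pos : ∀ S : Finset ι, 0 < Z S := by
    intro S
    induction S using Finset.induction_on with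
    | empty => simp [Z, hw1]
    | insert i S _ ih => exact lt_of_lt_of_le (mul_pos (by linarith) ih) (key S i)
  by_contra hcon
  push Not at hcon
  refine (pos univ).ne' (sum_eq_zero fun ω _ => if_neg fun h => ?_)
  obtain ⟨i, hi⟩ := hcon ω
  exact h i (mem_univ _) hi

section product

variable {V Ω : Type} [Fintype V] [DecidableEq V] [Fintype Ω]

theorem sum_wt_prod (p : Ω → ℝ) (h1 : ∑ a, p a = 1) (N : Finset V) (h : Ω → ℝ) :
    ∑ σ : V → Ω, (∏ b, p (σ b)) * ∏ b ∈ N, h (σ b) = (∑ a, p a * h a) ^ N.card := by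
  have e : ∀ σ : V → Ω, (∏ b, p (σ b)) * ∏ b ∈ N, h (σ b) =
      ∏ b, p (σ b) * (if b ∈ N then h (σ b) else 1) := fun σ => by
    rw [prod_mul_distrib, prod_ite_mem, univ_inter]
  simp only [e]
  rw [← Fintype.piFinset_univ,
    ← prod_univ_sum (fun _ => univ) (fun b a => p a * (if b ∈ N then h a else 1))]
  have e2 : ∀ b : V, ∑ a, p a * (if b ∈ N then h a else 1) =
      if b ∈ N then ∑ a, p a * h a else 1 := fun b => by
    split_ifs
    · rfl
    · simp [h1]
  simp only [e2]
  rw [prod_ite_mem, univ_inter, prod_const]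

theorem sum_wt (p : Ω → ℝ) (h1 : ∑ a, p a = 1) : ∑ σ : V → Ω, ∏ b, p (σ b) = 1 := by
  simpa using sum_wt_prod p h1 (∅ : Finset V) fun _ => 1

/-- functions of disjoint sets of coordinates are independent -/
theorem sum_wt_mul (p : Ω → ℝ) (h1 : ∑ a, p a = 1) (P : Finset V) (F H : (V → Ω) → ℝ)
    (hF : ∀ σ τ : V → Ω, (∀ x ∈ P, σ x = τ x) → F σ = F τ)
    (hH : ∀ σ τ : V → Ω, (∀ x, x ∉ P → σ x = τ x) → H σ = H τ) :
    ∑ σ : V → Ω, (∏ b, p (σ b)) * (F σ * H σ) =
      (∑ σ : V → Ω, (∏ b, p (σ b)) * F σ) * ∑ σ : V → Ω, (∏ b, p (σ b)) * H σ := by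
  rw [← mul_one (∑ σ : V → Ω, (∏ b, p (σ b)) * (F σ * H σ)), ← sum_wt (V := V) p h1,
    sum_mul_sum, sum_mul_sum, ← Fintype.sum_prod_type', ← Fintype.sum_prod_type']
  have hinv : Function.Involutive fun q : (V → Ω) × (V → Ω) =>
      (P.piecewise q.1 q.2, P.piecewise q.2 q.1) := by
    rintro ⟨σ, τ⟩
    ext b <;> by_cases hb : b ∈ P <;> simp [hb]
  refine Fintype.sum_bijective _ hinv.bijective _ _ ?_
  rintro ⟨σ, τ⟩
  have e1 : F (P.piecewise σ τ) = F σ := hF _ _ fun x hx => by simp [hx]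
  have e2 : H (P.piecewise τ σ) = H σ := hH _ _ fun x hx => by simp [hx]
  have e3 : (∏ b, p (P.piecewise σ τ b)) * ∏ b, p (P.piecewise τ σ b) =
      (∏ b, p (σ b)) * ∏ b, p (τ b) := by
    rw [← prod_mul_distrib, ← prod_mul_distrib]
    refine prod_congr rfl fun b _ => ?_
    by_cases hb : b ∈ P <;> simp [hb, mul_comm]
  simp only [e1, e2]
  calc (∏ b, p (σ b)) * (F σ * H σ) * ∏ b, p (τ b)
      = ((∏ b, p (σ b)) * ∏ b, p (τ b)) * (F σ * H σ) := by ring
    _ = _ := by rw [← e3]; ring

end product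

/-- A set that meets every neighbourhood, each in at most `L` points. -/
theorem exists_sparse_dom {V : Type} [Fintype V] [DecidableEq V] (N : V → Finset V) (d : ℕ)
    (hd : 0 < d) (hN : ∀ x, (N x).card = d) (hsym : ∀ x y, y ∈ N x → x ∈ N y) (L : ℕ) (μ : ℝ)
    (hμ0 : 0 ≤ μ) (hμ : μ ≤ d)
    (h : 4 * (Real.exp (-μ) + Real.exp μ / 2 ^ (L + 1)) * (d * d : ℕ) ≤ 1) :
    ∃ W : Finset V, ∀ z, (N z ∩ W).Nonempty ∧ (N z ∩ W).card ≤ L := by
  classical
  have hd' : (0 : ℝ) < d := by exact_mod_cast hd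
  set q : ℝ := μ / d with hq
  have hq0 : 0 ≤ q := by positivity
  have hq1 : q ≤ 1 := (div_le_one hd').2 hμ
  have hqd : q * d = μ := by rw [hq]; field_simp
  let p : Bool → ℝ := fun a => if a then q else 1 - q
  have hp0 : ∀ a, 0 ≤ p a := fun a => by
    cases a
    · simpa [p] using hq1
    · simpa [p] using hq0
  have hp1 : ∑ a, p a = 1 := by simp [p]
  let c : V → (V → Bool) → ℕ := fun z σ => ((N z).filter fun x => σ x).card
  let A : V → (V → Bool) → Prop := fun z σ => c z σ = 0 ∨ L < c z σ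
  have hA : ∀ z (σ τ : V → Bool), (∀ x ∈ N z, σ x = τ x) → (A z σ ↔ A z τ) := by
    intro z σ τ hx
    have : c z σ = c z τ := congrArg card (filter_congr fun x h => by rw [hx x h])
    simp only [A, this]
  have hprob : ∀ z, ∑ σ : V → Bool, (∏ b, p (σ b)) * (if A z σ then 1 else 0) ≤
      Real.exp (-μ) + Real.exp μ / 2 ^ (L + 1) := by
    intro z
    have e1 := sum_wt_prod p hp1 (N z) fun a => if a then 0 else 1
    have e2 := sum_wt_prod p hp1 (N z) fun a => if a then 2 else 1
    have e3 : ∀ σ : V → Bool, (if A z σ then (1 : ℝ) else 0) ≤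
        (∏ b ∈ N z, if σ b then 0 else 1) + (∏ b ∈ N z, if σ b then 2 else 1) / 2 ^ (L + 1) := by
      intro σ
      have a1 : (0 : ℝ) ≤ ∏ b ∈ N z, if σ b then 0 else 1 :=
        prod_nonneg fun b _ => by split_ifs <;> norm_num
      have a2 : (∏ b ∈ N z, if σ b then (2 : ℝ) else 1) = 2 ^ c z σ := by
        rw [← prod_filter, prod_const]
      rw [a2]
      have a3 : (0 : ℝ) ≤ 2 ^ c z σ / 2 ^ (L + 1) := by positivity
      split_ifs with hA
      · rcases hA with hA | hA
        · have : (∏ b ∈ N z, if σ b then (0 : ℝ) else 1) = 1 :=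
            prod_eq_one fun b hb => if_neg (filter_eq_empty_iff.1 (card_eq_zero.1 hA) hb)
          linarith
        · have : (1 : ℝ) ≤ 2 ^ c z σ / 2 ^ (L + 1) := by
            rw [le_div_iff₀ (by positivity), one_mul]
            exact pow_le_pow_right₀ (by norm_num) hA
          linarith
      · linarith
    refine (sum_le_sum fun σ _ => mul_le_mul_of_nonneg_left (e3 σ)
      (prod_nonneg fun b _ => hp0 _)).trans ?_
    simp only [mul_add, sum_add_distrib, ← mul_div_assoc]
    rw [← sum_div, e1, e2, hN]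
    have b1 : (∑ a, p a * if a then 0 else 1) = 1 - q := by simp [p]
    have b2 : (∑ a, p a * if a then 2 else 1) = 1 + q := by simp [p]; ring
    rw [b1, b2]
    have c1 : (1 - q) ^ d ≤ Real.exp (-μ) := by
      rw [← hqd, ← neg_mul, mul_comm, Real.exp_nat_mul]
      exact pow_le_pow_left₀ (by linarith) (by linarith [Real.add_one_le_exp (-q)]) _
    have c2 : (1 + q) ^ d ≤ Real.exp μ := by
      rw [← hqd, mul_comm, Real.exp_nat_mul]
      exact pow_le_pow_left₀ (by linarith) (by linarith [Real.add_one_le_exp q]) _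
    gcongr
  obtain ⟨σ, hσ⟩ := lll (fun σ : V → Bool => ∏ b, p (σ b))
    (fun σ => prod_nonneg fun b _ => hp0 _) (sum_wt p hp1) A (fun z => (N z).biUnion N) (d * d)
    (Nat.mul_pos hd hd)
    (fun z => card_biUnion_le.trans (by simp [hN])) _ h (by
      intro z S hS
      have e := sum_wt_mul p hp1 (N z) (fun σ => if A z σ then 1 else 0)
        (fun σ => if ∀ j ∈ S, ¬ A j σ then 1 else 0)
        (fun σ τ hx => by simp only [hA z σ τ hx])
        (fun σ τ hx => by
          have : ∀ j ∈ S, (A j σ ↔ A j τ) := fun j hj => hA j σ τ fun x hx' => hx x fun hz =>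
            disjoint_left.1 hS hj (mem_biUnion.2 ⟨x, hz, hsym _ _ hx'⟩)
          rw [if_congr (forall₂_congr fun j hj => not_congr (this j hj)) rfl rfl])
      have e1 : ∀ σ : V → Bool, (if A z σ ∧ ∀ j ∈ S, ¬ A j σ then ∏ b, p (σ b) else 0) =
          (∏ b, p (σ b)) * ((if A z σ then 1 else 0) * if ∀ j ∈ S, ¬ A j σ then 1 else 0) := by
        intro σ
        by_cases h1 : A z σ <;> by_cases h2 : ∀ j ∈ S, ¬ A j σ <;> simp only [h1, h2] <;> simp
      have e2 : ∀ σ : V → Bool, (if ∀ j ∈ S, ¬ A j σ then ∏ b, p (σ b) else 0) =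
          (∏ b, p (σ b)) * if ∀ j ∈ S, ¬ A j σ then 1 else 0 := fun σ => by
        split_ifs <;> simp
      simp only [e1, e2]
      rw [e]
      refine mul_le_mul_of_nonneg_right (hprob z) (sum_nonneg fun σ _ =>
        mul_nonneg (prod_nonneg fun b _ => hp0 _) ?_)
      split_ifs <;> norm_num)
  refine ⟨univ.filter fun x => σ x, fun z => ?_⟩
  have e : N z ∩ univ.filter (fun x => σ x) = (N z).filter fun x => σ x := by
    ext x; simp
  have := not_or.1 (hσ z)
  rw [e, ← card_pos]
  exact ⟨Nat.pos_of_ne_zero this.1, not_lt.1 this.2⟩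

end Pool.Agent.P.MP_01accb_co.HV
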