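import Pool.Agent.P.MP_01accb_co.HV.Cut
import Pool.Agent.P.MP_01accb_co.HV.Local

/-! The value for many fixed neighbours. -/

set_option autoImplicit false

namespace Pool.Agent.P.MP_01accb_co.HV

open Finset Equiv Classical

variable {V : Type} {X : SimpleGraph V} {Γ : Type} [Group Γ] [MulAction Γ V]

theorem exists_rod [Finite V] [MulAction.IsPretransitive Γ V]
    (hadj : ∀ (g : Γ) (u v : V), X.Adj u v → X.Adj (g • u) (g • v)) {o u : V} (hu : X.Adj o u)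
    (hfix : ∀ g : Γ, g • o = o → g • u = u) :
    ∃ τ : Perm V, τ o = u ∧ (∀ x, X.Adj x (τ x)) ∧ ∀ (g : Γ) (x : V), τ (g • x) = g • τ x := by
  choose γ hγ using fun v => MulAction.exists_smul_eq Γ o v
  have hwd : ∀ g : Γ, γ (g • o) • u = g • u := fun g => by
    have := hfix (g⁻¹ * γ (g • o)) (by rw [mul_smul, hγ, inv_smul_smul])
    rwa [mul_smul, inv_smul_eq_iff] at this
  have hs : Function.Surjective fun v => γ v • u := fun v => by
    obtain ⟨k, rfl⟩ := MulAction.exists_smul_eq Γ u v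
    exact ⟨k • o, hwd k⟩
  refine ⟨Equiv.ofBijective _ (Finite.surjective_iff_bijective.1 hs), ?_, fun x => ?_,
    fun g x => ?_⟩
  · simpa using hwd 1
  · have := hadj (γ x) _ _ hu
    rwa [hγ] at this
  · obtain ⟨k, rfl⟩ := MulAction.exists_smul_eq Γ o x
    simp only [Equiv.ofBijective_apply]
    rw [← mul_smul, hwd, hwd, mul_smul]

theorem numeric {d : ℕ} (hd : d ≤ 2 * 10 ^ 9) :
    4 * (Real.exp (-45) + Real.exp 45 / 2 ^ (129 + 1)) * (d * d : ℕ) ≤ 1 := by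
  have e : Real.exp 45 = Real.exp 1 ^ 45 := by
    rw [← Real.exp_nat_mul]; norm_num
  have h1 : (2.718 : ℝ) ^ 45 ≤ Real.exp 45 := by
    rw [e]
    exact pow_le_pow_left₀ (by norm_num) (by linarith [Real.exp_one_gt_d9]) _
  have h2 : Real.exp 45 ≤ (2.719 : ℝ) ^ 45 := by
    rw [e]
    exact pow_le_pow_left₀ (Real.exp_pos 1).le (by linarith [Real.exp_one_lt_d9]) _
  have h3 : Real.exp (-45) ≤ ((2.718 : ℝ) ^ 45)⁻¹ := by
    rw [Real.exp_neg]
    exact inv_anti₀ (by positivity) h1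
  have h4 : ((d * d : ℕ) : ℝ) ≤ (2 * 10 ^ 9) * (2 * 10 ^ 9) := by
    exact_mod_cast Nat.mul_le_mul hd hd
  calc _ ≤ 4 * (((2.718 : ℝ) ^ 45)⁻¹ + (2.719 : ℝ) ^ 45 / 2 ^ (129 + 1)) *
        ((2 * 10 ^ 9) * (2 * 10 ^ 9)) := by gcongr
    _ ≤ 1 := by norm_num

theorem value_of_fixed [Fintype V] [Fintype Γ] [MulAction.IsPretransitive Γ V]
    (hX : X.Preconnected) (hadj : ∀ (g : Γ) (u v : V), X.Adj u v → X.Adj (g • u) (g • v))
    (o : V) (A : Finset V) (hA : 10 ^ 9 ≤ A.card) (hAo : ∀ u ∈ A, X.Adj o u)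
    (hfix : ∀ g : Γ, g • o = o → ∀ u ∈ A, g • u = u) : ValueIsHalf X Γ := by
  have : Nonempty V := ⟨o⟩
  obtain ⟨A', hA', hc⟩ := exists_subset_card_eq hA
  choose! ρ h1 h2 h3 using fun u (hu : u ∈ A') =>
    exists_rod hadj (hAo u (hA' hu)) fun g hg => hfix g hg u (hA' hu)
  let T : Finset (Perm V) := A'.image ρ ∪ A'.image fun u => (ρ u)⁻¹
  have hT : ∀ τ ∈ T, (∀ x, X.Adj x (τ x)) ∧ ∀ (g : Γ) (x : V), τ (g • x) = g • τ x := by
    intro τ hτ
    rcases mem_union.1 hτ with hτ | hτ <;> obtain ⟨u, hu, rfl⟩ := mem_image.1 hτ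
    · exact ⟨h2 u hu, h3 u hu⟩
    · refine ⟨fun x => by simpa using (h2 u hu ((ρ u)⁻¹ x)).symm, fun g x => (ρ u).injective ?_⟩
      rw [h3 u hu]
      simp
  have hR : Rods X T := by
    refine ⟨fun τ hτ => (hT τ hτ).1, fun τ hτ => ?_, fun τ hτ τ' hτ' x e => ?_⟩
    · rcases mem_union.1 hτ with hτ | hτ <;> obtain ⟨u, hu, rfl⟩ := mem_image.1 hτ
      · exact mem_union_right _ (mem_image_of_mem _ hu)
      · exact mem_union_left _ (by simpa using ⟨u, hu, rfl⟩)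
    · ext v
      obtain ⟨g, rfl⟩ := MulAction.exists_smul_eq Γ x v
      rw [(hT τ hτ).2, (hT τ' hτ').2, e]
  have c1 : 10 ^ 9 ≤ T.card := by
    rw [← hc, ← card_image_of_injOn (f := ρ) fun u hu v hv e => by
      rw [← h1 u hu, ← h1 v hv, e]]
    exact card_le_card subset_union_left
  have c2 : T.card ≤ 2 * 10 ^ 9 := by
    refine (card_union_le _ _).trans ((Nat.add_le_add card_image_le card_image_le).trans ?_)
    omega
  obtain ⟨W, hW⟩ := exists_sparse_dom (nb T) T.card (by omega) hR.card_nb hR.symm 129 45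
    (by norm_num) (by exact_mod_cast (by omega : 45 ≤ T.card)) (numeric c2)
  obtain ⟨I, i1, i2, i3⟩ := hR.links hX Γ hadj (fun τ hτ => (hT τ hτ).2) (fun v => (hW v).1)
    (fun v => (hW v).2) (by omega) (by omega)
  obtain ⟨L, hL, hall⟩ := exists_tour hR.adj ((hW o).1.mono inter_subset_right) (fun v => by
    obtain ⟨w, hw⟩ := (hW v).1
    exact ⟨w, (mem_inter.1 hw).2, mem_nb.1 (hR.symm _ _ (mem_inter.1 hw).1)⟩) i1 i2 i3
  exact value_of_tour o hR.adj (fun τ hτ => (hT τ hτ).2) hL hall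

end Pool.Agent.P.MP_01accb_co.HV
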