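import Pool.Agent.P.MP_01accb_co.Basic

/-! Tours along a tree of links. -/

set_option autoImplicit false

namespace Pool.Agent.P.MP_01accb_co.HV

open Finset Equiv

variable {V : Type} {X : SimpleGraph V} {T : Finset (Perm V)}

/-- the vertex collected in a state -/
def clr (s : Perm V × V) : V := s.1 s.2

/-- allowed steps; after the state `(1, w)` with `w ∈ O` the first coordinate is `1` -/
def Stp (X : SimpleGraph V) (O : Finset V) (s t : Perm V × V) : Prop :=
  (s.1 = t.1 ∨ s.1 = 1 ∨ t.1 = 1) ∧ (t.2 = s.2 ∨ X.Adj s.2 t.2) ∧ (s.1 = 1 → s.2 ∈ O → t.1 = 1)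

/-- a list of states with allowed steps and different colours -/
structure Tr (X : SimpleGraph V) (T : Finset (Perm V)) (O : Finset V)
    (L : List (Perm V × V)) : Prop where
  ch : L.IsChain (Stp X O)
  rod : ∀ s ∈ L, s.1 = 1 ∨ s.1 ∈ T
  nd : (L.map clr).Nodup

theorem value_of_tour [Fintype V] {Γ : Type} [Group Γ] [Fintype Γ] [MulAction Γ V]
    [MulAction.IsPretransitive Γ V] (o : V) (hadj : ∀ τ ∈ T, ∀ x, X.Adj x (τ x))
    (heq : ∀ τ ∈ T, ∀ (g : Γ) (x : V), τ (g • x) = g • τ x) {L : List (Perm V × V)}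
    (hL : Tr X T ∅ L) (hall : ∀ x, x ∈ L.map clr) : ValueIsHalf X Γ := by
  classical
  have : Nonempty V := ⟨o⟩
  have hlen : L.length = Fintype.card V := by
    rw [← List.length_map (f := clr), ← List.toFinset_card_of_nodup hL.nd]
    congr 1
    ext x
    simp only [List.mem_toFinset, Finset.mem_univ, iff_true]
    exact hall x
  have hn0 : 0 < L.length := hlen ▸ Fintype.card_pos
  let st : ℕ → Perm V × V := fun i => L[min i (L.length - 1)]'(by omega)
  have hmem : ∀ i, st i ∈ L := fun i => List.getElem_mem _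
  have hst : ∀ i, st (i + 1) = st i ∨ Stp X ∅ (st i) (st (i + 1)) := by
    intro i
    by_cases hi : i + 1 < L.length
    · right
      have h1 := List.isChain_iff_getElem.1 hL.ch i hi
      have e1 : st i = L[i] := by simp only [st]; congr 1; omega
      have e2 : st (i + 1) = L[i + 1] := by simp only [st]; congr 1; omega
      rw [e1, e2]
      exact h1
    · left
      simp only [st]
      congr 1
      omega
  have hinv : ∀ i, (st i).1⁻¹ o = o ∨ X.Adj ((st i).1⁻¹ o) o := fun i => by
    rcases hL.rod _ (hmem i) with h | h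
    · left; rw [h]; rfl
    · right; simpa using hadj _ h ((st i).1⁻¹ o)
  refine ⟨fun r s _ _ h => lower_bound r s h, fun i => (st i).1⁻¹ o, fun i => (st i).2,
    ?_, ?_, ?_⟩
  · intro i
    rcases hst i with h | ⟨h | h | h, -⟩
    · left; simp only [h]
    · left; simp only [h]
    · rcases hinv (i + 1) with h1 | h1
      · left; simp only [h, h1]; rfl
      · right; simp only [h]; exact h1.symm
    · rcases hinv i with h1 | h1
      · left; simp only [h, h1]; rfl
      · right; simp only [h]; exact h1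
  · intro i
    rcases hst i with h | ⟨-, h, -⟩
    · left; simp only [h]
    · exact h
  · refine optimal_of_bij _ _ o (fun i => clr (st i)) ?_ ?_
    · intro i _ g
      rcases hL.rod _ (hmem i) with h | h
      · simp [clr, h]
      · rw [clr, ← (st i).1.injective.eq_iff, heq _ h]
        simp
    · intro i hi j hj e
      rw [← hlen] at hi hj
      have h1 : clr (st i) = (L.map clr)[i]'(by simpa using hi) := by
        simp only [st, List.getElem_map]; congr 2; omega
      have h2 : clr (st j) = (L.map clr)[j]'(by simpa using hj) := by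
        simp only [st, List.getElem_map]; congr 2; omega
      rw [h1, h2] at e
      exact (List.Nodup.getElem_inj_iff hL.nd).1 e

/-- insertion of a closed excursion after the state `(1, w)` -/
theorem Tr.ins {O O' : Finset V} (hO : O' ⊆ O) {L E : List (Perm V × V)} (hL : Tr X T O L)
    {w : V} (hw : w ∈ O) (hwL : ((1 : Perm V), w) ∈ L)
    (hE : (((1 : Perm V), w) :: E).IsChain (Stp X O'))
    (hl : ∀ u ∈ E.getLast?, u.2 = w) (hrod : ∀ s ∈ E, s.1 = 1 ∨ s.1 ∈ T)
    (hnd : (E.map clr).Nodup) (hdis : ∀ v ∈ E.map clr, v ∉ L.map clr) :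
    ∃ L', Tr X T O' L' ∧ L'.Perm (L ++ E) := by
  obtain ⟨L1, L2, rfl⟩ := List.append_of_mem hwL
  have hp : (L1 ++ ((((1 : Perm V), w) :: E) ++ L2)).Perm ((L1 ++ ((1 : Perm V), w) :: L2) ++ E) := by
    rw [List.append_assoc]
    exact List.Perm.append_left _ (List.Perm.cons _ List.perm_append_comm)
  have hmono : ∀ s t, Stp X O s t → Stp X O' s t := fun s t h =>
    ⟨h.1, h.2.1, fun h1 h2 => h.2.2 h1 (hO h2)⟩
  refine ⟨_, ⟨?_, fun s hs => ?_, ?_⟩, hp⟩
  · obtain ⟨c1, c2, c3⟩ := List.isChain_append.1 hL.ch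
    obtain ⟨c4, c5⟩ := List.isChain_cons.1 c2
    refine List.isChain_append.2 ⟨c1.imp hmono, List.isChain_append.2 ⟨hE, c5.imp hmono, ?_⟩, ?_⟩
    · intro u hu t ht
      have h1 := c4 t ht
      have h2 : t.1 = 1 := h1.2.2 rfl hw
      have h3 : u.2 = w := by
        cases E with
        | nil => simp at hu; rw [← hu]
        | cons a E => exact hl u (by simpa using hu)
      exact ⟨Or.inr (Or.inr h2), h3 ▸ h1.2.1, fun _ _ => h2⟩
    · intro u hu t ht
      exact hmono _ _ (c3 u hu t (by simpa using ht))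
  · rcases List.mem_append.1 (hp.mem_iff.1 hs) with h | h
    exacts [hL.rod s h, hrod s h]
  · rw [(hp.map clr).nodup_iff, List.map_append]
    exact List.nodup_append.2 ⟨hL.nd, hnd, fun a ha b hb h => hdis b hb (h ▸ ha)⟩

/-- excursions through the leaves of a star -/
theorem star (hadj : ∀ τ ∈ T, ∀ x, X.Adj x (τ x)) {O : Finset V} {w : V} (hw : w ∉ O) :
    ∀ U : List V, (∀ u ∈ U, u ∉ O ∧ ∃ τ ∈ T, τ w = u) →
      ∃ E : List (Perm V × V), (((1 : Perm V), w) :: E).IsChain (Stp X O) ∧
        (∀ u ∈ (((1 : Perm V), w) :: E).getLast?, u.2 = w) ∧ (∀ s ∈ E, s.1 = 1 ∨ s.1 ∈ T) ∧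
        (E.map clr).Perm U
  | [], _ => ⟨[], by simp, by simp, by simp, by simp⟩
  | [u], h => by
      obtain ⟨-, τ, hτ, rfl⟩ := h u (by simp)
      refine ⟨[(τ, w)], ?_, by simp, by simp [hτ], by simp [clr]⟩
      exact List.isChain_pair.2 ⟨Or.inr (Or.inl rfl), Or.inl rfl, fun _ h => absurd h hw⟩
  | u :: u' :: U, h => by
      obtain ⟨hu, τ, hτ, rfl⟩ := h u (by simp)
      obtain ⟨-, τ', hτ', rfl⟩ := h u' (by simp)
      obtain ⟨E, h1, h2, h3, h4⟩ := star hadj hw U fun u hu => h u (by simp [hu])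
      refine ⟨E ++ [(1, τ w), (τ', w)], ?_, ?_, ?_, ?_⟩
      · rw [← List.cons_append]
        refine List.isChain_append.2 ⟨h1, List.isChain_pair.2
          ⟨Or.inr (Or.inl rfl), Or.inr (hadj τ hτ w).symm, fun _ h => absurd h hu⟩, ?_⟩
        intro s hs t ht
        have ht' : t = (1, τ w) := by simpa [eq_comm] using ht
        rw [ht']
        exact ⟨Or.inr (Or.inr rfl), Or.inr (h2 s hs ▸ hadj τ hτ w), fun _ _ => rfl⟩
      · intro s hs
        rw [← List.cons_append, List.getLast?_append] at hs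
        have : s = (τ', w) := by simpa [eq_comm] using hs
        rw [this]
      · intro s hs
        rcases List.mem_append.1 hs with hs | hs
        · exact h3 s hs
        · simp only [List.mem_cons, List.not_mem_nil, or_false] at hs
          rcases hs with rfl | rfl
          exacts [Or.inl rfl, Or.inr hτ']
      · rw [List.map_append]
        exact List.perm_append_comm.trans ((h4.cons _).cons _)

/-- all remaining vertices are collected by star excursions -/
theorem finish [Fintype V] (hadj : ∀ τ ∈ T, ∀ x, X.Adj x (τ x)) (W : Finset V) :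
    ∀ O : Finset V, O ⊆ W → ∀ L, Tr X T O L → (∀ w ∈ W, ((1 : Perm V), w) ∈ L) →
      (∀ v, v ∉ L.map clr → ∃ w ∈ O, ∃ τ ∈ T, τ w = v) →
      ∃ L', Tr X T ∅ L' ∧ ∀ x, x ∈ L'.map clr := by
  classical
  intro O
  induction O using Finset.induction_on with
  | empty =>
    intro _ L hL _ h
    refine ⟨L, hL, fun x => ?_⟩
    by_contra hx
    simpa using h x hx
  | insert w O hw ih =>
    intro hO L hL hW h
    let U := univ.filter fun v => v ∉ L.map clr ∧ ∃ τ ∈ T, τ w = v
    have hU : ∀ u ∈ U.toList, u ∉ L.map clr ∧ ∃ τ ∈ T, τ w = u := fun u hu =>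
      (mem_filter.1 (mem_toList.1 hu)).2
    obtain ⟨E, h1, h2, h3, h4⟩ := star hadj hw U.toList fun u hu => ⟨fun h => (hU u hu).1
      (List.mem_map.2 ⟨_, hW u (hO (mem_insert_of_mem h)), rfl⟩), (hU u hu).2⟩
    obtain ⟨L', hL', hp⟩ := hL.ins (subset_insert w O) (mem_insert_self _ _)
      (hW w (hO (mem_insert_self _ _))) h1 (fun u hu => h2 u (by
        cases E with
        | nil => simp at hu
        | cons a E => simpa using hu)) h3 (h4.nodup_iff.2 U.nodup_toList)
      fun v hv => (hU v (h4.mem_iff.1 hv)).1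
    refine ih ((subset_insert _ _).trans hO) L' hL'
      (fun w' hw' => hp.mem_iff.2 (List.mem_append_left _ (hW w' hw'))) fun v hv => ?_
    rw [(hp.map clr).mem_iff, List.map_append, List.mem_append, not_or] at hv
    obtain ⟨w', hw', τ, hτ, rfl⟩ := h v hv.1
    rcases mem_insert.1 hw' with rfl | hw'
    · exact absurd (h4.mem_iff.2 (mem_toList.2 (mem_filter.2 ⟨mem_univ _, hv.1, τ, hτ, rfl⟩))) hv.2
    · exact ⟨w', hw', τ, hτ, rfl⟩

/-- a short path between two centres with a rod and two spare leaves -/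
structure Lk (V : Type) where
  a : V
  mid : List V
  b : V
  g : Perm V
  la : V
  lb : V

/-- the path of a link -/
def Lk.path (e : Lk V) : List V := e.a :: (e.mid ++ [e.b])

/-- the vertices reserved by a link -/
def Lk.res (e : Lk V) : List V := e.mid ++ e.la :: e.lb :: e.path.map e.g

/-- the reversed link -/
def Lk.flip (e : Lk V) : Lk V := ⟨e.b, e.mid.reverse, e.a, e.g, e.lb, e.la⟩

/-- valid links -/
structure Lk.Ok (X : SimpleGraph V) (T : Finset (Perm V)) (W : Finset V) (e : Lk V) : Prop where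
  ha : e.a ∈ W
  hb : e.b ∈ W
  ch : e.path.IsChain X.Adj
  hg : e.g ∈ T
  hla : X.Adj e.a e.la
  hlb : X.Adj e.b e.lb
  nd : e.res.Nodup
  out : ∀ v ∈ e.res, v ∉ W
  len : e.mid.length ≤ 2

theorem Lk.path_flip (e : Lk V) : e.flip.path = e.path.reverse := by
  simp [Lk.path, Lk.flip]

theorem Lk.res_flip (e : Lk V) : e.flip.res.Perm e.res := by
  rw [Lk.res, Lk.path_flip]
  exact (List.reverse_perm _).append
    ((List.Perm.swap _ _ _).trans ((((List.reverse_perm _).map _).cons _).cons _))

theorem Lk.Ok.flip {W : Finset V} {e : Lk V} (h : e.Ok X T W) : e.flip.Ok X T W where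
  ha := h.hb
  hb := h.ha
  ch := by
    rw [Lk.path_flip, List.isChain_reverse]
    exact h.ch.imp fun _ _ h => h.symm
  hg := h.hg
  hla := h.hlb
  hlb := h.hla
  nd := e.res_flip.nodup_iff.2 h.nd
  out := fun v hv => h.out v (e.res_flip.mem_iff.1 hv)
  len := by simpa [Lk.flip] using h.len

theorem Lk.Ok.card {W : Finset V} {e : Lk V} (h : e.Ok X T W) : e.res.length ≤ 8 := by
  have := h.len
  simp only [Lk.res, Lk.path, List.length_append, List.length_cons, List.length_map,
    List.length_nil]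
  omega

/-- one step of the growth of the tour -/
theorem grow (hadj : ∀ τ ∈ T, ∀ x, X.Adj x (τ x)) {W : Finset V} {e : Lk V} (he : e.Ok X T W)
    {L : List (Perm V × V)} (hL : Tr X T W L) (ha : ((1 : Perm V), e.a) ∈ L)
    (hb : e.b ∉ L.map clr) (hres : ∀ v ∈ e.res, v ∉ L.map clr) :
    ∃ L', Tr X T W L' ∧ (∀ s ∈ L, s ∈ L') ∧ ((1 : Perm V), e.b) ∈ L' ∧
      ∀ v ∈ L'.map clr, v ∈ L.map clr ∨ v = e.b ∨ v ∈ e.res := by
  have hg1 : e.g ≠ 1 := fun h => by simpa [h] using hadj _ he.hg e.a
  let E : List (Perm V × V) := (e.mid ++ [e.b]).map (fun v => ((1 : Perm V), v)) ++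
    ((1 : Perm V), e.lb) :: e.path.reverse.map fun v => (e.g, v)
  have hc : E.map clr = (e.mid ++ [e.b]) ++ e.lb :: e.path.reverse.map e.g := by
    simp [E, clr, Function.comp_def]
  have hp : (e.la :: E.map clr).Perm (e.b :: e.res) := by
    rw [hc, Lk.res, List.append_assoc]
    refine List.perm_middle.symm.trans (List.Perm.trans ?_ List.perm_middle)
    refine List.Perm.append_left _ ((List.Perm.swap _ _ _).trans ?_)
    exact ((((List.reverse_perm _).map _).cons _).cons _).cons _
  have hnd : (e.b :: e.res).Nodup := List.nodup_cons.2 ⟨fun h => he.out _ h he.hb, he.nd⟩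
  have hmem : ∀ v ∈ E.map clr, v = e.b ∨ v ∈ e.res := fun v hv =>
    List.mem_cons.1 (hp.mem_iff.1 (List.mem_cons_of_mem _ hv))
  obtain ⟨L', hL', hp'⟩ := hL.ins (E := E) subset_rfl he.ha ha (by
      have e1 : ((1 : Perm V), e.a) :: E = e.path.map (fun v => ((1 : Perm V), v)) ++
          ((1 : Perm V), e.lb) :: e.path.reverse.map fun v => (e.g, v) := by
        simp [E, Lk.path]
      rw [e1]
      refine List.isChain_append.2 ⟨?_, List.isChain_cons.2 ⟨?_, ?_⟩, ?_⟩
      · rw [List.isChain_map]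
        exact he.ch.imp fun _ _ h => ⟨Or.inl rfl, Or.inr h, fun _ _ => rfl⟩
      · intro t ht
        have : t = (e.g, e.b) := by simpa [Lk.path, eq_comm] using ht
        rw [this]
        exact ⟨Or.inr (Or.inl rfl), Or.inr he.hlb.symm,
          fun _ h => absurd h (he.out _ (by simp [Lk.res]))⟩
      · rw [List.isChain_map, List.isChain_reverse]
        exact he.ch.imp fun _ _ h => ⟨Or.inl rfl, Or.inr h.symm, fun h => absurd h hg1⟩
      · intro s hs t ht
        have h1 : t = (1, e.lb) := by simpa [eq_comm] using ht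
        have h2 : s = (1, e.b) := by
          rw [List.getLast?_map, Lk.path, ← List.cons_append, List.getLast?_append] at hs
          simpa [eq_comm] using hs
        rw [h1, h2]
        exact ⟨Or.inl rfl, Or.inr he.hlb, fun _ _ => rfl⟩)
    (by
      intro u hu
      have e1 : E = ((e.mid ++ [e.b]).map (fun v => ((1 : Perm V), v)) ++ ((1 : Perm V), e.lb) ::
          (e.mid ++ [e.b]).reverse.map fun v => (e.g, v)) ++ [(e.g, e.a)] := by
        simp [E, Lk.path]
      rw [e1, List.getLast?_append] at hu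
      have : u = (e.g, e.a) := by simpa [eq_comm] using hu
      rw [this])
    (by
      intro s hs
      simp only [E, List.mem_append, List.mem_map, List.mem_cons] at hs
      rcases hs with ⟨v, -, rfl⟩ | rfl | ⟨v, -, rfl⟩
      exacts [Or.inl rfl, Or.inl rfl, Or.inr he.hg])
    (List.nodup_cons.1 (hp.nodup_iff.2 hnd)).2
    (fun v hv => by
      rcases hmem v hv with rfl | h
      exacts [hb, hres v h])
  refine ⟨L', hL', fun s hs => hp'.mem_iff.2 (List.mem_append_left _ hs),
    hp'.mem_iff.2 (List.mem_append_right _ (by simp [E])), fun v hv => ?_⟩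
  rw [(hp'.map clr).mem_iff, List.map_append, List.mem_append] at hv
  exact hv.imp_right (hmem v)

/-- a connected family of disjoint links on a dominating set gives a complete tour -/
theorem exists_tour [Fintype V] (hadj : ∀ τ ∈ T, ∀ x, X.Adj x (τ x)) {W : Finset V}
    (hne : W.Nonempty) (hdom : ∀ v, ∃ w ∈ W, ∃ τ ∈ T, τ w = v) {I : Finset (Lk V)}
    (hI : ∀ e ∈ I, e.Ok X T W)
    (hdis : ∀ e ∈ I, ∀ f ∈ I, e ≠ f → ¬ ∃ v, v ∈ e.res ∧ v ∈ f.res)
    (hcon : ∀ C : Finset V, C ⊆ W → C.Nonempty → C ≠ W →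
      ∃ e ∈ I, (e.a ∈ C ∧ e.b ∉ C) ∨ (e.b ∈ C ∧ e.a ∉ C)) :
    ∃ L, Tr X T ∅ L ∧ ∀ x, x ∈ L.map clr := by
  classical
  have key : ∀ k, k + 1 ≤ W.card → ∃ C : Finset V, C ⊆ W ∧ C.card = k + 1 ∧ ∃ L, Tr X T W L ∧
      (∀ w ∈ C, ((1 : Perm V), w) ∈ L) ∧
      ∀ v ∈ L.map clr, v ∈ C ∨ ∃ e ∈ I, e.a ∈ C ∧ e.b ∈ C ∧ v ∈ e.res := by
    intro k
    induction k with
    | zero =>
      intro _
      obtain ⟨w, hw⟩ := hne
      exact ⟨{w}, by simpa using hw, by simp, [(1, w)], ⟨by simp, by simp, by simp⟩, by simp,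
        by simp [clr]⟩
    | succ k ih =>
      intro hk
      obtain ⟨C, hCW, hC, L, hL, h1, h2⟩ := ih (by omega)
      obtain ⟨e, heI, he⟩ := hcon C hCW (card_pos.1 (by omega)) (by rintro rfl; omega)
      obtain ⟨e', he', ha, hb, hab, hr⟩ : ∃ e' : Lk V, e'.Ok X T W ∧ e'.a ∈ C ∧ e'.b ∉ C ∧
          (e.a ∈ insert e'.b C ∧ e.b ∈ insert e'.b C) ∧ ∀ v ∈ e'.res, v ∈ e.res := by
        rcases he with he | he
        · exact ⟨e, hI e heI, he.1, he.2, ⟨mem_insert_of_mem he.1, mem_insert_self _ _⟩,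
            fun _ h => h⟩
        · exact ⟨e.flip, (hI e heI).flip, he.1, he.2,
            ⟨mem_insert_self _ _, mem_insert_of_mem he.1⟩, fun v h => e.res_flip.mem_iff.1 h⟩
      obtain ⟨L', hL', h3, h4, h5⟩ := grow hadj he' hL (h1 _ ha) (fun h => by
          rcases h2 _ h with h | ⟨f, hf, -, -, h⟩
          exacts [hb h, (hI f hf).out _ h he'.hb]) (fun v hv h => by
          rcases h2 _ h with h | ⟨f, hf, hfa, hfb, h⟩
          · exact he'.out v hv (hCW h)
          · refine hdis e heI f hf ?_ ⟨v, hr v hv, h⟩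
            rintro rfl
            rcases he with he | he
            exacts [he.2 hfb, he.2 hfa])
      refine ⟨insert e'.b C, insert_subset he'.hb hCW, by rw [card_insert_of_notMem hb, hC], L',
        hL', fun w hw => ?_, fun v hv => ?_⟩
      · rcases mem_insert.1 hw with rfl | hw
        exacts [h4, h3 _ (h1 w hw)]
      · rcases h5 v hv with h | rfl | h
        · rcases h2 v h with h | ⟨f, hf, hfa, hfb, h⟩
          · exact Or.inl (mem_insert_of_mem h)
          · exact Or.inr ⟨f, hf, mem_insert_of_mem hfa, mem_insert_of_mem hfb, h⟩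
        · exact Or.inl (mem_insert_self _ _)
        · exact Or.inr ⟨e, heI, hab.1, hab.2, hr v h⟩
  have hpos := card_pos.2 hne
  obtain ⟨C, hCW, hC, L, hL, h1, -⟩ := key (W.card - 1) (by omega)
  obtain rfl : C = W := eq_of_subset_of_card_le hCW (by omega)
  exact finish hadj C C subset_rfl L hL h1 fun v _ => hdom v

end Pool.Agent.P.MP_01accb_co.HV
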